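import Pool.Agent.Q174.VK.Main

/-!
# Virtual unknotting number and its sequential version

For every virtual knot the virtual unknotting number equals the virtual unknotting sequence
number.  Virtual knots are Gauss diagrams up to the three Reidemeister moves.

The idea of the proof: follow a sequence of moves and virtualizations by a sequence of moves
without any virtualization, keeping the invariant that, after virtualizing the crossings in a
certain set at once, the current diagram can be turned into the current diagram of the
sequence by decreasing first and second Reidemeister moves only.
-/

namespace Pool.Agent.Results.MP_f8820e_gt.VirtualSequence

open Q174.VK

/-- For every virtual knot `K`, the virtual unknotting number and the virtual unknotting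
sequence number agree. -/
theorem result (K : Diagram) :
    virtualUnknottingNumber K = virtualUnknottingSequenceNumber K :=
  virtualUnknottingNumber_eq K

end Pool.Agent.Results.MP_f8820e_gt.VirtualSequence
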